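import Pool.Agent.H82.G4.Targets

/-!
# MP_ee74d2_an, Theorem G, group G4, row GE1: the fourth null covector is near the span of three
separated ones
-/

set_option autoImplicit false

namespace Pool.Agent.H60.G4.GE1

open MeasureTheory Set
open Pool.Agent.H82.G4 Pool.Agent.H83.G
open Pool.Agent.H22.G4 (nv Ind)
open scoped ENNReal NNReal RealInnerProductSpace

/-- the norm of `|y|² x - |x|² y` -/
private theorem nrm_iv {m : ℕ} (x y : E m) :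
    ‖‖y‖ ^ 2 • x - ‖x‖ ^ 2 • y‖ = ‖x‖ * ‖y‖ * ‖x - y‖ := by
  have h1 : ‖‖y‖ ^ 2 • x - ‖x‖ ^ 2 • y‖ ^ 2 = (‖x‖ * ‖y‖ * ‖x - y‖) ^ 2 := by
    rw [mul_pow, mul_pow, norm_sub_sq_real, norm_sub_sq_real, norm_smul, norm_smul,
      real_inner_smul_left, real_inner_smul_right, Real.norm_of_nonneg (sq_nonneg _),
      Real.norm_of_nonneg (sq_nonneg _)]
    ring
  exact (sq_eq_sq₀ (norm_nonneg _) (by positivity)).1 h1

/-- the coefficient of one of two independent vectors of the form `(ξ, |ξ|²)` -/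
private theorem coef {m : ℕ} {B K₁ a b L w'' : ℝ} {x y w' : E m} (hB : 1 ≤ B) (hK : 1 ≤ K₁)
    (hx : ‖x‖ ≤ 2 * B) (hy : ‖y‖ ≤ 2 * B) (hx' : K₁⁻¹ ≤ ‖x‖) (hy' : K₁⁻¹ ≤ ‖y‖)
    (hxy : K₁⁻¹ ≤ ‖x - y‖) (h1 : w' = a • x + b • y) (h2 : w'' = a * ‖x‖ ^ 2 + b * ‖y‖ ^ 2)
    (hL : 0 ≤ L) (hw' : ‖w'‖ ≤ (1 + B) * L) (hw'' : |w''| ≤ (1 + B) ^ 2 * L) :
    |a| ≤ K₁ ^ 3 * (2 * B * (1 + B) * (1 + 3 * B)) * L := by
  have hK0 : 0 < K₁ := by linarith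
  have hB0 : 0 < B := by linarith
  have h3 : ‖y‖ ^ 2 • w' - w'' • y = a • (‖y‖ ^ 2 • x - ‖x‖ ^ 2 • y) := by
    rw [h1, h2]
    module
  have h4 : ‖y‖ ^ 2 * ‖w'‖ + |w''| * ‖y‖ ≥ |a| * (‖x‖ * ‖y‖ * ‖x - y‖) := by
    have h5 : ‖‖y‖ ^ 2 • w' - w'' • y‖ ≤ ‖y‖ ^ 2 * ‖w'‖ + |w''| * ‖y‖ := by
      refine (norm_sub_le _ _).trans (le_of_eq ?_)
      rw [norm_smul, norm_smul, Real.norm_of_nonneg (sq_nonneg _), Real.norm_eq_abs]
    rw [h3, norm_smul, nrm_iv, Real.norm_eq_abs] at h5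
    exact h5
  have h6 : ‖y‖ ^ 2 * ‖w'‖ + |w''| * ‖y‖ ≤ (2 * B * (1 + B) * (1 + 3 * B)) * L := by
    have h7 : ‖y‖ ^ 2 * ‖w'‖ ≤ (2 * B) ^ 2 * ((1 + B) * L) := by
      refine mul_le_mul (pow_le_pow_left₀ (norm_nonneg _) hy 2) hw' (norm_nonneg _) (by positivity)
    have h8 : |w''| * ‖y‖ ≤ (1 + B) ^ 2 * L * (2 * B) :=
      mul_le_mul hw'' hy (norm_nonneg _) (by positivity)
    calc _ ≤ (2 * B) ^ 2 * ((1 + B) * L) + (1 + B) ^ 2 * L * (2 * B) := add_le_add h7 h8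
      _ = _ := by ring
  have h9 : K₁⁻¹ ^ 3 ≤ ‖x‖ * ‖y‖ * ‖x - y‖ := by
    have hK' : 0 ≤ K₁⁻¹ := by positivity
    calc K₁⁻¹ ^ 3 = K₁⁻¹ * K₁⁻¹ * K₁⁻¹ := by ring
      _ ≤ ‖x‖ * ‖y‖ * ‖x - y‖ :=
        mul_le_mul (mul_le_mul hx' hy' hK' (norm_nonneg _)) hxy hK' (by positivity)
  have h10 : |a| * K₁⁻¹ ^ 3 ≤ (2 * B * (1 + B) * (1 + 3 * B)) * L :=
    (mul_le_mul_of_nonneg_left h9 (abs_nonneg _)).trans (h4.le.trans h6)
  calc |a| = K₁ ^ 3 * (|a| * K₁⁻¹ ^ 3) := by field_simp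
    _ ≤ K₁ ^ 3 * ((2 * B * (1 + B) * (1 + 3 * B)) * L) :=
      mul_le_mul_of_nonneg_left h10 (by positivity)
    _ = _ := by ring

private theorem norm_z1 {m : ℕ} (z : Z m) : |z.1| ≤ ‖z‖ := by
  rw [Prod.norm_def]; exact le_max_left _ _

private theorem norm_z2 {m : ℕ} (z : Z m) : ‖z.2.1‖ ≤ ‖z‖ := by
  rw [Prod.norm_def, Prod.norm_def]; exact (le_max_left _ _).trans (le_max_right _ _)

private theorem norm_z3 {m : ℕ} (z : Z m) : |z.2.2| ≤ ‖z‖ := by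
  rw [Prod.norm_def, Prod.norm_def]; exact (le_max_right _ _).trans (le_max_right _ _)

/-- three separated directions have independent null covectors -/
private theorem three {m : ℕ} {B K₁ : ℝ} (hB : 1 ≤ B) (hK : 1 ≤ K₁) {e0 e1 e2 : E m}
    (h0 : ‖e0‖ ≤ B) (h1 : ‖e1‖ ≤ B) (h2 : ‖e2‖ ≤ B) (h01 : K₁⁻¹ ≤ ‖e0 - e1‖)
    (h02 : K₁⁻¹ ≤ ‖e0 - e2‖) (h12 : K₁⁻¹ ≤ ‖e1 - e2‖) (a0 a1 a2 : ℝ) :
    |a0| + |a1| + |a2| ≤ (1 + 4 * (K₁ ^ 3 * (2 * B * (1 + B) * (1 + 3 * B)))) *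
      ‖a0 • nv e0 + a1 • nv e1 + a2 • nv e2‖ := by
  obtain ⟨V, hV⟩ : ∃ V : Z m, V = a0 • nv e0 + a1 • nv e1 + a2 • nv e2 := ⟨_, rfl⟩
  rw [← hV]
  have hB0 : 0 < B := by linarith
  have hv0 : V.1 = a0 + a1 + a2 := by
    rw [hV]; simp [nv]
  have hv1 : V.2.1 = a0 • e0 + a1 • e1 + a2 • e2 := by
    rw [hV]; simp [nv]
  have hv2 : V.2.2 = a0 * ‖e0‖ ^ 2 + a1 * ‖e1‖ ^ 2 + a2 * ‖e2‖ ^ 2 := by
    rw [hV]; simp [nv]
  have hn0 := norm_z1 V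
  have hn1 := norm_z2 V
  have hn2 := norm_z3 V
  have hL := norm_nonneg V
  have hw' : ‖V.2.1 - V.1 • e0‖ ≤ (1 + B) * ‖V‖ := by
    calc _ ≤ ‖V.2.1‖ + ‖V.1 • e0‖ := norm_sub_le _ _
      _ ≤ ‖V‖ + ‖V‖ * B := by
        refine add_le_add hn1 ?_
        rw [norm_smul, Real.norm_eq_abs]
        exact mul_le_mul hn0 h0 (norm_nonneg _) hL
      _ = _ := by ring
  have hw'' : |V.2.2 - 2 * ⟪V.2.1, e0⟫ + V.1 * ‖e0‖ ^ 2| ≤ (1 + B) ^ 2 * ‖V‖ := by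
    have h5 : |⟪V.2.1, e0⟫| ≤ ‖V‖ * B :=
      (abs_real_inner_le_norm _ _).trans (mul_le_mul hn1 h0 (norm_nonneg _) hL)
    have h6 : |V.1 * ‖e0‖ ^ 2| ≤ ‖V‖ * B ^ 2 := by
      rw [abs_mul, abs_of_nonneg (sq_nonneg ‖e0‖)]
      exact mul_le_mul hn0 (pow_le_pow_left₀ (norm_nonneg _) h0 2) (by positivity) hL
    rw [abs_le] at h5 h6 hn2 ⊢
    constructor <;> nlinarith [h5.1, h5.2, h6.1, h6.2, hn2.1, hn2.2]
  have e1' : V.2.1 - V.1 • e0 = a1 • (e1 - e0) + a2 • (e2 - e0) := by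
    rw [hv1, hv0]; module
  have e2' : V.2.2 - 2 * ⟪V.2.1, e0⟫ + V.1 * ‖e0‖ ^ 2 =
      a1 * ‖e1 - e0‖ ^ 2 + a2 * ‖e2 - e0‖ ^ 2 := by
    rw [hv2, hv1, hv0, norm_sub_sq_real, norm_sub_sq_real, inner_add_left, inner_add_left,
      real_inner_smul_left, real_inner_smul_left, real_inner_smul_left, real_inner_self_eq_norm_sq]
    ring
  have hx : ‖e1 - e0‖ ≤ 2 * B := (norm_sub_le _ _).trans (by linarith)
  have hy : ‖e2 - e0‖ ≤ 2 * B := (norm_sub_le _ _).trans (by linarith)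
  have hx' : K₁⁻¹ ≤ ‖e1 - e0‖ := by rw [norm_sub_rev]; exact h01
  have hy' : K₁⁻¹ ≤ ‖e2 - e0‖ := by rw [norm_sub_rev]; exact h02
  have c1 := coef hB hK hx hy hx' hy' (by rw [sub_sub_sub_cancel_right]; exact h12) e1' e2' hL
    hw' hw''
  have c2 := coef hB hK hy hx hy' hx' (by rw [sub_sub_sub_cancel_right, norm_sub_rev]; exact h12)
    (e1'.trans (add_comm _ _)) (e2'.trans (add_comm _ _)) hL hw' hw''
  have c0 : |a0| ≤ ‖V‖ + |a1| + |a2| := by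
    have : a0 = V.1 - a1 - a2 := by rw [hv0]; ring
    rw [this]
    exact (abs_sub _ _).trans (add_le_add_left ((abs_sub _ _).trans (add_le_add_left hn0 _)) _)
  linarith

theorem pf_GE1 : T_GE1 := by
  intro m B K₁ hB hK
  obtain ⟨M, hM⟩ : ∃ M : ℝ, M = 1 + 4 * (K₁ ^ 3 * (2 * B * (1 + B) * (1 + 3 * B))) := ⟨_, rfl⟩
  have hK0 : 0 < K₁ := by linarith
  have hB0 : 0 < B := by linarith
  have hM1 : 1 ≤ M := by
    rw [hM]
    have : 0 ≤ K₁ ^ 3 * (2 * B * (1 + B) * (1 + 3 * B)) := by positivity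
    linarith
  have hM0 : 0 < M := by linarith
  have hMB : 0 < M * B ^ 2 := by positivity
  refine ⟨2 + 2 * (M * B ^ 2), by linarith, ?_⟩
  intro ρ η hρ hη h01 h02 h12 hInd
  have hn3 : ‖nv (η 3)‖ ≤ B ^ 2 := by
    have h1 : (1 : ℝ) ≤ B ^ 2 := by nlinarith
    have h2 : B ≤ B ^ 2 := by nlinarith
    rw [nv, Prod.norm_def, Prod.norm_def]
    refine max_le (by simpa using h1) (max_le ((hη 3).trans h2) ?_)
    show ‖‖η 3‖ ^ 2‖ ≤ B ^ 2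
    rw [Real.norm_of_nonneg (sq_nonneg _)]
    exact pow_le_pow_left₀ (norm_nonneg _) (hη 3) 2
  rcases le_or_gt ρ (1 / (2 * M)) with hρM | hρM
  · unfold Ind at hInd
    push Not at hInd
    obtain ⟨a, ha⟩ := hInd
    rw [Fin.sum_univ_four, Fin.sum_univ_four] at ha
    obtain ⟨V, hV⟩ : ∃ V : Z m, V = a 0 • nv (η 0) + a 1 • nv (η 1) + a 2 • nv (η 2) := ⟨_, rfl⟩
    rw [← hV] at ha
    have h3 := three hB hK (hη 0) (hη 1) (hη 2) h01 h02 h12 (a 0) (a 1) (a 2)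
    rw [← hV, ← hM] at h3
    obtain ⟨σ, hσ⟩ : ∃ σ : ℝ, σ = |a 0| + |a 1| + |a 2| := ⟨_, rfl⟩
    rw [← hσ] at h3 ha
    have hV1 : ‖V‖ ≤ ‖V + a 3 • nv (η 3)‖ + |a 3| * B ^ 2 := by
      have h4 : V = (V + a 3 • nv (η 3)) - a 3 • nv (η 3) := by abel
      calc ‖V‖ = ‖(V + a 3 • nv (η 3)) - a 3 • nv (η 3)‖ := by rw [← h4]
        _ ≤ ‖V + a 3 • nv (η 3)‖ + ‖a 3 • nv (η 3)‖ := norm_sub_le _ _
        _ ≤ _ := by
          rw [norm_smul, Real.norm_eq_abs]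
          exact add_le_add_right (mul_le_mul_of_nonneg_left hn3 (abs_nonneg _)) _
    have hσ0 : 0 ≤ σ := by rw [hσ]; positivity
    have ha3 : 0 ≤ |a 3| := abs_nonneg _
    have hMρ : M * ρ ≤ 1 / 2 := by
      rw [le_div_iff₀ (by positivity)] at hρM
      linarith
    have h5 : σ ≤ (σ + |a 3|) / 2 + |a 3| * (M * B ^ 2) := by
      calc σ ≤ M * ‖V‖ := h3
        _ ≤ M * (ρ * (σ + |a 3|) + |a 3| * B ^ 2) :=
          mul_le_mul_of_nonneg_left (hV1.trans (add_le_add_left ha.le _)) hM0.le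
        _ = M * ρ * (σ + |a 3|) + |a 3| * (M * B ^ 2) := by ring
        _ ≤ 1 / 2 * (σ + |a 3|) + |a 3| * (M * B ^ 2) :=
          add_le_add_left (mul_le_mul_of_nonneg_right hMρ (by positivity)) _
        _ = _ := by ring
    have h6 : σ ≤ |a 3| * (1 + 2 * (M * B ^ 2)) := by linarith
    have ha3' : 0 < |a 3| := by
      rcases ha3.eq_or_lt with h | h
      · exfalso
        rw [← h] at h6 ha
        have h7 : σ = 0 := le_antisymm (by linarith) hσ0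
        rw [h7] at ha
        have := norm_nonneg (V + a 3 • nv (η 3))
        linarith
      · exact h
    have ha30 : a 3 ≠ 0 := abs_pos.1 ha3'
    have hai : ∀ i : Fin 3, |a i.castSucc| ≤ σ := by
      intro i
      have q0 := abs_nonneg (a 0)
      have q1 := abs_nonneg (a 1)
      have q2 := abs_nonneg (a 2)
      fin_cases i
      · show |a 0| ≤ σ
        linarith
      · show |a 1| ≤ σ
        linarith
      · show |a 2| ≤ σ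
        linarith
    refine ⟨fun i => -(a i.castSucc / a 3), fun i => ?_, ?_⟩
    · show |-(a i.castSucc / a 3)| ≤ _
      rw [abs_neg, abs_div, div_le_iff₀ ha3']
      have := hai i
      nlinarith
    · have h8 : nv (η 3) - ((fun i : Fin 3 => -(a i.castSucc / a 3)) 0 • nv (η 0) +
          (fun i : Fin 3 => -(a i.castSucc / a 3)) 1 • nv (η 1) +
          (fun i : Fin 3 => -(a i.castSucc / a 3)) 2 • nv (η 2)) =
          (a 3)⁻¹ • (V + a 3 • nv (η 3)) := by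
        show nv (η 3) - (-(a 0 / a 3) • nv (η 0) + -(a 1 / a 3) • nv (η 1) +
          -(a 2 / a 3) • nv (η 2)) = _
        rw [hV, smul_add, smul_smul, inv_mul_cancel₀ ha30, one_smul]
        simp only [div_eq_inv_mul]
        module
      rw [h8, norm_smul, Real.norm_eq_abs, abs_inv, inv_mul_le_iff₀ ha3']
      calc ‖V + a 3 • nv (η 3)‖ ≤ ρ * (σ + |a 3|) := ha.le
        _ ≤ ρ * (|a 3| * (1 + 2 * (M * B ^ 2)) + |a 3|) :=
          mul_le_mul_of_nonneg_left (add_le_add_left h6 _) hρ.le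
        _ = |a 3| * ((2 + 2 * (M * B ^ 2)) * ρ) := by ring
  · refine ⟨fun _ => 0, fun i => ?_, ?_⟩
    · show |(0 : ℝ)| ≤ _
      rw [abs_zero]
      linarith
    · have h8 : nv (η 3) - ((fun _ : Fin 3 => (0 : ℝ)) 0 • nv (η 0) +
          (fun _ : Fin 3 => (0 : ℝ)) 1 • nv (η 1) +
          (fun _ : Fin 3 => (0 : ℝ)) 2 • nv (η 2)) = nv (η 3) := by
        simp
      rw [h8]
      refine hn3.trans ?_
      rw [div_lt_iff₀ (by positivity)] at hρM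
      have h9 : B ^ 2 * 1 ≤ B ^ 2 * (ρ * (2 * M)) :=
        mul_le_mul_of_nonneg_left hρM.le (by positivity)
      calc B ^ 2 = B ^ 2 * 1 := (mul_one _).symm
        _ ≤ B ^ 2 * (ρ * (2 * M)) := h9
        _ ≤ B ^ 2 * (ρ * (2 * M)) + 2 * ρ := by linarith
        _ = _ := by ring

end Pool.Agent.H60.G4.GE1
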