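import Pool.Agent.H82.G4.Targets

/-!
# MP_ee74d2_an, Theorem G, group G4, row GE3: caps whose inverted centres are near a line
-/

set_option autoImplicit false

namespace Pool.Agent.H60.G4.GE3

open MeasureTheory Set
open Pool.Agent.H82.G4 Pool.Agent.H83.G
open scoped ENNReal NNReal RealInnerProductSpace

/-- distance and inversion -/
private theorem dist_iv {m : ℕ} {x y : E m} (hx : 0 < ‖x‖) (hy : 0 < ‖y‖) :
    ‖x - y‖ = ‖x‖ * ‖y‖ * ‖(‖x‖ ^ 2)⁻¹ • x - (‖y‖ ^ 2)⁻¹ • y‖ := by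
  have h1 : ‖x - y‖ ^ 2 = (‖x‖ * ‖y‖ * ‖(‖x‖ ^ 2)⁻¹ • x - (‖y‖ ^ 2)⁻¹ • y‖) ^ 2 := by
    rw [mul_pow, mul_pow, norm_sub_sq_real, norm_sub_sq_real, norm_smul, norm_smul,
      real_inner_smul_left, real_inner_smul_right,
      Real.norm_of_nonneg (inv_nonneg.2 (sq_nonneg _)),
      Real.norm_of_nonneg (inv_nonneg.2 (sq_nonneg _))]
    field_simp
    ring
  exact (sq_eq_sq₀ (norm_nonneg _) (by positivity)).1 h1

/-- the distance of two centres -/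
private theorem close {m : ℕ} {B C₀ ρ t t' : ℝ} {η₀ p₁ p₂ c c' : E m} (hB : 1 ≤ B)
    (h0 : ‖η₀‖ ≤ B) (h1 : ‖p₁‖ ≤ B) (h2 : ‖p₂‖ ≤ B) (hρ : 0 ≤ ρ) (hC₀ : 0 ≤ C₀)
    (hc : ‖c‖ ≤ B) (hc' : ‖c'‖ ≤ B) (hr : 0 < ‖c - η₀‖) (hr' : 0 < ‖c' - η₀‖)
    (ht : ‖(‖c - η₀‖ ^ 2)⁻¹ • (c - η₀) - (p₁ + t • (p₂ - p₁))‖ ≤ C₀ * ρ)
    (ht' : ‖(‖c' - η₀‖ ^ 2)⁻¹ • (c' - η₀) - (p₁ + t' • (p₂ - p₁))‖ ≤ C₀ * ρ)
    (htt : |t - t'| ≤ ρ) : ‖c - c'‖ ≤ (2 * B) ^ 2 * (2 * C₀ + 2 * B) * ρ := by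
  have h3 := dist_iv hr hr'
  rw [sub_sub_sub_cancel_right] at h3
  rw [h3]
  have h4 : ‖(‖c - η₀‖ ^ 2)⁻¹ • (c - η₀) - (‖c' - η₀‖ ^ 2)⁻¹ • (c' - η₀)‖ ≤
      (2 * C₀ + 2 * B) * ρ := by
    have h5 : (‖c - η₀‖ ^ 2)⁻¹ • (c - η₀) - (‖c' - η₀‖ ^ 2)⁻¹ • (c' - η₀) =
        ((‖c - η₀‖ ^ 2)⁻¹ • (c - η₀) - (p₁ + t • (p₂ - p₁))) -
        ((‖c' - η₀‖ ^ 2)⁻¹ • (c' - η₀) - (p₁ + t' • (p₂ - p₁))) + (t - t') • (p₂ - p₁) := by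
      module
    rw [h5]
    calc _ ≤ ‖((‖c - η₀‖ ^ 2)⁻¹ • (c - η₀) - (p₁ + t • (p₂ - p₁))) -
          ((‖c' - η₀‖ ^ 2)⁻¹ • (c' - η₀) - (p₁ + t' • (p₂ - p₁)))‖ + ‖(t - t') • (p₂ - p₁)‖ :=
          norm_add_le _ _
      _ ≤ (C₀ * ρ + C₀ * ρ) + ρ * (2 * B) := by
        refine add_le_add ((norm_sub_le _ _).trans (add_le_add ht ht')) ?_
        rw [norm_smul, Real.norm_eq_abs]
        exact mul_le_mul htt ((norm_sub_le _ _).trans (by linarith)) (norm_nonneg _) hρ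
      _ = _ := by ring
  have h6 : ‖c - η₀‖ * ‖c' - η₀‖ ≤ (2 * B) ^ 2 := by
    rw [sq]
    exact mul_le_mul ((norm_sub_le _ _).trans (by linarith))
      ((norm_sub_le _ _).trans (by linarith)) (norm_nonneg _) (by linarith)
  calc _ ≤ (2 * B) ^ 2 * ((2 * C₀ + 2 * B) * ρ) :=
        mul_le_mul h6 h4 (norm_nonneg _) (by positivity)
    _ = _ := by ring

theorem pf_GE3 (hPUS : T_PUS) : T_GE3 := by
  intro m B r C₀ hm hB hr hC₀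
  obtain ⟨-, -, Cp, hCp, -, hcount, -⟩ := hPUS m
  obtain ⟨D, hD⟩ : ∃ D : ℝ, D = (2 * B) ^ 2 * (2 * C₀ + 2 * B) := ⟨_, rfl⟩
  have hB0 : 0 < B := by linarith
  have hC0 : 0 < C₀ := by linarith
  have hD0 : 0 < D := by rw [hD]; positivity
  refine ⟨(2 * C₀ + 2) * (Cp * (1 + D) ^ m), by positivity, ?_⟩
  intro K ρ η₀ p₁ p₂ J hK hKρ hρ1 h0 h1 h2 hJ
  have hK0 : 0 < K := by linarith
  have hKi : 0 < K⁻¹ := by positivity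
  have hρ0 : 0 < ρ := hKi.trans_le hKρ
  choose! hJB hJr t htC ht using hJ
  -- a fibre
  have hfib : ∀ n : ℤ, (((J.filter fun k => ⌊t k / ρ⌋ = n).card : ℕ) : ℝ) ≤
      Cp * (1 + D) ^ m * (ρ * K) ^ m := by
    intro n
    rcases (J.filter fun k => ⌊t k / ρ⌋ = n).eq_empty_or_nonempty with he | ⟨k₀, hk₀⟩
    · rw [he, Finset.card_empty, Nat.cast_zero]
      positivity
    rw [Finset.mem_filter] at hk₀
    have h3 := hcount K⁻¹ (D * ρ) (ctr K⁻¹ k₀) (J.filter fun k => ⌊t k / ρ⌋ = n) hKi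
      (by positivity) (fun k hk => by
        rw [Finset.mem_filter] at hk
        have htt : |t k - t k₀| ≤ ρ := by
          have h4 := hk.2.trans hk₀.2.symm
          have h5 := Int.floor_le (t k / ρ)
          have h6 := Int.lt_floor_add_one (t k / ρ)
          have h7 := Int.floor_le (t k₀ / ρ)
          have h8 := Int.lt_floor_add_one (t k₀ / ρ)
          rw [h4] at h5 h6
          have h9 : |t k / ρ - t k₀ / ρ| ≤ 1 := by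
            rw [abs_le]
            constructor <;> linarith
          rw [← sub_div, abs_div, abs_of_pos hρ0, div_le_one hρ0] at h9
          exact h9
        rw [hD]
        exact close hB h0 h1 h2 hρ0.le hC0.le (hJB k hk.1) (hJB k₀ hk₀.1)
          (hr.trans_le (hJr k hk.1)) (hr.trans_le (hJr k₀ hk₀.1)) (ht k hk.1) (ht k₀ hk₀.1) htt)
    refine h3.trans ?_
    rw [mul_assoc, ← mul_pow]
    refine mul_le_mul_of_nonneg_left (pow_le_pow_left₀ (by positivity) ?_ m) hCp.le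
    have h10 : 1 ≤ ρ * K := by
      calc (1 : ℝ) = K⁻¹ * K := (inv_mul_cancel₀ hK0.ne').symm
        _ ≤ ρ * K := mul_le_mul_of_nonneg_right hKρ hK0.le
    rw [div_inv_eq_mul]
    calc 1 + D * ρ * K ≤ ρ * K + D * ρ * K := add_le_add_left h10 _
      _ = (1 + D) * (ρ * K) := by ring
  -- the number of fibres
  have hmaps : ∀ k ∈ J, ⌊t k / ρ⌋ ∈ Finset.Icc ⌊-C₀ / ρ⌋ ⌊C₀ / ρ⌋ := by
    intro k hk
    have h3 := abs_le.1 (htC k hk)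
    rw [Finset.mem_Icc]
    exact ⟨Int.floor_le_floor (div_le_div_of_nonneg_right h3.1 hρ0.le),
      Int.floor_le_floor (div_le_div_of_nonneg_right h3.2 hρ0.le)⟩
  have hcard := Finset.card_eq_sum_card_fiberwise hmaps
  have hnum : (((Finset.Icc ⌊-C₀ / ρ⌋ ⌊C₀ / ρ⌋).card : ℕ) : ℝ) ≤ (2 * C₀ + 2) / ρ := by
    have h3 : ⌊-C₀ / ρ⌋ ≤ ⌊C₀ / ρ⌋ + 1 := by
      have : ⌊-C₀ / ρ⌋ ≤ ⌊C₀ / ρ⌋ :=
        Int.floor_le_floor (div_le_div_of_nonneg_right (by linarith) hρ0.le)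
      omega
    have h4 : (((Finset.Icc ⌊-C₀ / ρ⌋ ⌊C₀ / ρ⌋).card : ℕ) : ℤ) =
        ⌊C₀ / ρ⌋ + 1 - ⌊-C₀ / ρ⌋ := by
      rw [Int.card_Icc, Int.toNat_of_nonneg (by omega)]
    have h5 : (((Finset.Icc ⌊-C₀ / ρ⌋ ⌊C₀ / ρ⌋).card : ℕ) : ℝ) =
        ⌊C₀ / ρ⌋ + 1 - ⌊-C₀ / ρ⌋ := by exact_mod_cast h4
    rw [h5]
    have h6 := Int.floor_le (C₀ / ρ)
    have h7 := Int.lt_floor_add_one (-C₀ / ρ)
    have h8 : 1 ≤ 1 / ρ := by rw [le_div_iff₀ hρ0]; linarith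
    have h9 : (2 * C₀ + 2) / ρ = 2 * (C₀ / ρ) + 2 * (1 / ρ) := by ring
    have h10 : -C₀ / ρ = -(C₀ / ρ) := neg_div _ _
    have h11 : -(C₀ / ρ) < ⌊-C₀ / ρ⌋ + 1 := h10.symm.trans_lt h7
    rw [h9]
    linarith
  calc (J.card : ℝ) = ∑ n ∈ Finset.Icc ⌊-C₀ / ρ⌋ ⌊C₀ / ρ⌋,
        (((J.filter fun k => ⌊t k / ρ⌋ = n).card : ℕ) : ℝ) := by
        rw [hcard]; push_cast; rfl
    _ ≤ ∑ _n ∈ Finset.Icc ⌊-C₀ / ρ⌋ ⌊C₀ / ρ⌋, Cp * (1 + D) ^ m * (ρ * K) ^ m :=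
        Finset.sum_le_sum fun n _ => hfib n
    _ = (((Finset.Icc ⌊-C₀ / ρ⌋ ⌊C₀ / ρ⌋).card : ℕ) : ℝ) *
        (Cp * (1 + D) ^ m * (ρ * K) ^ m) := by
        rw [Finset.sum_const, nsmul_eq_mul]
    _ ≤ (2 * C₀ + 2) / ρ * (Cp * (1 + D) ^ m * (ρ * K) ^ m) :=
        mul_le_mul_of_nonneg_right hnum (by positivity)
    _ = (2 * C₀ + 2) * (Cp * (1 + D) ^ m) * ρ ^ ((m : ℝ) - 1) * K ^ m := by
        rw [Real.rpow_sub_one hρ0.ne', Real.rpow_natCast, mul_pow]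
        ring

end Pool.Agent.H60.G4.GE3
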